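import Pool.Agent.R723.PhiDefs
import Pool.Agent.R723.Rigid

/-!
# MP_f9a7a1_al, Q1: `Δ_B = max {φ_S : S simple}` fails, in every positive characteristic

Let `p` be a prime, `F` the field with `p²` elements and `G = C_p × (F ⋊ Fˣ)`. For every field `k`
of characteristic `p`, the group algebra `B = kG` is a (non-semisimple) block. Every simple module
`S` satisfies `Ext¹(S, S) ≠ 0`, so `φ_S = 1`. The module `M = k[C_p]`, inflated along the projection
`G → C_p`, is not projective and satisfies `Ext¹(M, M) = 0`, so `φ_M ≥ 2`.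
-/

set_option autoImplicit false

open CategoryTheory MonoidAlgebra MulOpposite

universe u

namespace Pool.Agent.R723

/-- `g ↦ g⁻¹` as an algebra isomorphism from `kG` to its opposite. -/
noncomputable def opEquiv (k : Type u) [Field k] (G : Type) [Group G] :
    MonoidAlgebra k G ≃ₐ[k] (MonoidAlgebra k G)ᵐᵒᵖ := by
  let f : G →* (MonoidAlgebra k G)ᵐᵒᵖ :=
    { toFun := fun g => op (single g⁻¹ 1)
      map_one' := by simp [MonoidAlgebra.one_def, ← op_one]
      map_mul' := fun g h => by
        rw [← op_mul, single_mul_single, mul_inv_rev, mul_one] }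
  let L := MonoidAlgebra.lift k (MonoidAlgebra k G)ᵐᵒᵖ G f
  have hL : ∀ x, L x = op (mapDomain (fun g : G => g⁻¹) x) := by
    intro x
    induction x using MonoidAlgebra.induction_linear with
    | zero => simp
    | add x y hx hy => rw [map_add, hx, hy, mapDomain_add, MulOpposite.op_add]
    | single g r =>
      rw [MonoidAlgebra.lift_single, mapDomain_single]
      change r • op (single g⁻¹ (1 : k)) = _
      rw [← op_smul, smul_single]
      simp
  refine AlgEquiv.ofBijective L ⟨?_, ?_⟩
  · intro x y h
    rw [hL, hL] at h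
    exact mapDomain_injective inv_injective (op_injective h)
  · intro y
    refine ⟨mapDomain (fun g : G => g⁻¹) y.unop, ?_⟩
    rw [hL]
    apply unop_injective
    have : ∀ z : MonoidAlgebra k G,
        mapDomain (fun g : G => g⁻¹) (mapDomain (fun g : G => g⁻¹) z) = z := by
      intro z
      induction z using MonoidAlgebra.induction_linear with
      | zero => simp
      | add x y hx hy => rw [mapDomain_add, mapDomain_add, hx, hy]
      | single g r => simp
    exact this _

end Pool.Agent.R723

open Pool.Agent.R723 in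
/-- For every prime `p` and every field `k` of characteristic `p` there are a finite group `G` and
a non-semisimple block `B` of `kG` with `max {φ_S : S simple} = 1` and `Δ_B ≥ 2`. -/
theorem Pool.Agent.Results.MP_f9a7a1_al.DeltaNotMax.result (p : ℕ) [Fact p.Prime] (k : Type u)
    [Field k] [CharP k p] :
    ∃ (G : Type) (_ : Group G) (_ : Finite G) (B : Type u) (_ : Ring B) (_ : Algebra k B),
      IsBlock k G B ∧ ¬ IsSemisimpleRing B ∧ maxPhiSimple B = 1 ∧ 2 ≤ Delta B := by
  let F := GaloisField p 2
  have hF : ∃ a : Fˣ, a ≠ 1 := by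
    have : Fintype F := Fintype.ofFinite F
    classical
    have hcard : Fintype.card Fˣ = p ^ 2 - 1 := by
      rw [Fintype.card_units, ← Nat.card_eq_fintype_card, GaloisField.card p 2 two_ne_zero]
    have h2 : 2 ≤ p := (Fact.out : p.Prime).two_le
    have h3 : 1 < Fintype.card Fˣ := by
      rw [hcard]
      have : 4 ≤ p ^ 2 := by nlinarith
      omega
    obtain ⟨a, b, hab⟩ := Fintype.exists_pair_of_one_lt_card h3
    by_cases ha : a = 1
    · exact ⟨b, fun hb => hab (ha.trans hb.symm)⟩
    · exact ⟨a, ha⟩
  let B := MonoidAlgebra k (AffG p F)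
  let e : B ≃ₐ[k] Bᵐᵒᵖ := opEquiv k (AffG p F)
  have hnp : ¬ Module.Projective Bᵐᵒᵖ (MC e) := MC.not_projective e
  refine ⟨AffG p F, inferInstance, inferInstance, B, inferInstance, inferInstance, ⟨?_, ?_, ?_⟩,
    ?_, ?_, ?_⟩
  · refine ⟨PUnit, inferInstance, inferInstance, ⟨?_⟩⟩
    exact
      { toFun := fun x => (x, PUnit.unit)
        invFun := fun x => x.1
        left_inv := fun _ => rfl
        right_inv := fun _ => rfl
        map_mul' := fun _ _ => rfl
        map_add' := fun _ _ => rfl
        commutes' := fun _ => rfl }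
  · infer_instance
  · exact fun E hE hc => central_idem E hE hc
  · intro h
    apply hnp
    have : IsSemisimpleRing Bᵐᵒᵖ := inferInstance
    exact Module.projective_of_isSemisimpleRing _ _
  · -- all simple modules have `φ = 1`
    have h1 : ∀ (S : Type u) [AddCommGroup S] [Module Bᵐᵒᵖ S] [IsSimpleModule Bᵐᵒᵖ S],
        phi B S = 1 := by
      intro S _ _ _
      refine le_antisymm (sInf_le ⟨1, le_rfl, by simp, simple_ext e S⟩) ?_
      refine le_sInf ?_
      rintro x ⟨r, hr, rfl, -⟩
      exact_mod_cast hr
    refine le_antisymm (sSup_le ?_) ?_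
    · rintro x ⟨S, _, _, hS, rfl⟩
      exact (h1 S).le
    · obtain ⟨I, hI⟩ := Ideal.exists_maximal Bᵐᵒᵖ
      have hs : IsSimpleModule Bᵐᵒᵖ (Bᵐᵒᵖ ⧸ I) := isSimpleModule_iff_isCoatom.2 hI.out
      exact le_sSup ⟨Bᵐᵒᵖ ⧸ I, inferInstance, inferInstance, hs, (h1 _).symm⟩
  · have hfin : Module.Finite Bᵐᵒᵖ (MC e) := Module.Finite.of_surjective (MC.q e) (MC.q_surjective e)
    refine le_trans ?_ (le_sSup ⟨MC e, inferInstance, inferInstance, hfin, hnp, rfl⟩)
    refine le_sInf ?_
    rintro x ⟨r, hr, rfl, hn⟩
    have : r ≠ 1 := by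
      rintro rfl
      exact not_subsingleton_iff_nontrivial.2 hn (MC.ext_one e hF)
    have : 2 ≤ r := by omega
    exact_mod_cast this
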